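import Pool.Agent.N624.NT.Lower
import Pool.Agent.N624.NT.Upper

/-!
# The Weisfeiler-Leman dimension of nets (sets of mutually orthogonal Latin squares)

A net of order `n` and degree `k` has `n ^ 2` points and `k` parallel classes of `n` lines; two lines
of different classes have exactly one common point. Nets are the same as sets of `k - 2` mutually
orthogonal Latin squares of order `n`. Their graphs (points on a common line are adjacent) are the
strongly regular graphs of Latin square type `L_k(n)`, with smallest eigenvalue `-k`; their
isomorphism is a special case of graph isomorphism which is decided in time `n ^ O(log n)` by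
individualization and refinement (Miller 1978), and not known to be in P.

Lower bound: for every `k ≥ 4`, every prime `p ≥ k - 1` and every `d ≥ 1` there are two nets of
degree `k` and of the same order `n = p ^ r`, `r ≤ 1350 d`, whose graphs are not isomorphic but are
distinguished neither by the `d`-dimensional Weisfeiler-Leman method nor by the `d`-dimensional
invertible-map test of Dawar and Holm over all fields of characteristic different from `p`. (There
is a prime `p` with `k - 1 ≤ p ≤ 2 k`, so dimension of order `log n / log k` is needed.)

Upper bound: if `n` is at most the product of the numbers `min (k - 1, j + 2)` over `j < t`, then the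
method of dimension `t + 8` identifies the graph of every net of order `n` and degree `k ≥ 3` (with
`(k - 1) ^ 2 + 4 ≤ n`) among all graphs. So for `k ≤ (log n) ^ O(1)` the necessary dimension is of
order `log n / log k`.

Proof of the lower bound. For a group `G` of exponent `p` the lines `x = c` and `x ^ i y = c`,
`i = 0, …, k - 2`, form a net with the point set `G × G`. The groups are those of
`MP_f1a348_lc.GroupWLDimension` (class two, locally isomorphic by shears), and the shears
act on the nets. The automorphisms of the net that fix the lines `x = c` and all parallel classes
are the maps `(x, y) ↦ (x, y a)`, but those that fix the lines of another class (and all classes) are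
translations by central elements. As the groups are not commutative, isomorphisms of the nets
preserve the class `x = c` and induce isomorphisms of the groups; isomorphisms of the graphs are
isomorphisms of the nets because cliques with more than `(k - 1) ^ 2` points are contained in lines.

Proof of the upper bound. The set of the points and lines that are recognized after the
individualization of some points is closed under joins, intersections and parallels. If it contains
lines of `κ` classes and is not everything, and if one more point is individualized, which is chosen
on an unknown line of an unknown class through a known point if there is an unknown class, then the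
number of known lines in each class grows by a factor `κ - 1` at least, and `κ` grows if `κ < k`.
-/

set_option autoImplicit false

namespace Pool.Agent.Results.MP_f1a348_lc.NetsWLDimension

open Pool.Agent.W185.SRG Pool.Agent.TH658.Sos Pool.Agent.N624.NT

theorem result :
    (∃ C : ℕ, ∀ k : ℕ, 4 ≤ k → ∀ p : ℕ, p.Prime → k ≤ p + 1 → ∀ d : ℕ, 1 ≤ d →
      ∃ (P Q P' Q' : Type) (_ : Fintype P) (_ : Fintype Q) (_ : Fintype P') (_ : Fintype Q')
        (f : Fin k → P → Q) (f' : Fin k → P' → Q') (r : ℕ),
        r ≤ C * d ∧ Fintype.card Q = p ^ r ∧ Fintype.card Q' = p ^ r ∧ IsNet f ∧ IsNet f' ∧
        IsEmpty (netGraph f ≃g netGraph f') ∧ WLEquivalent d (netGraph f) (netGraph f') ∧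
        IMEquiv p d (netGraph f) (netGraph f')) ∧
    (∀ (k t : ℕ) (P Q W : Type) [Fintype P] [Fintype Q] [Fintype W] (f : Fin k → P → Q)
      (H : SimpleGraph W), 3 ≤ k → IsNet f → (k - 1) ^ 2 + 4 ≤ Fintype.card Q →
      Fintype.card Q ≤ ∏ j ∈ Finset.range t, min (k - 1) (j + 2) →
      WLEquivalent (t + 8) (netGraph f) H → Nonempty (netGraph f ≃g H)) := by
  classical
  refine ⟨⟨1350, fun k hk p hp hkp d hd => lower p hp k hk hkp d hd⟩, ?_⟩
  intro k t P Q W _ _ _ f H hk hf hQ ht h
  exact upper hf hk hQ t ht h

end Pool.Agent.Results.MP_f1a348_lc.NetsWLDimension
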