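import Pool.Agent.N595.RC.Discrete

/-!
# Random Cayley digraphs of arbitrary finite groups

There is a constant `C` such that every finite group `G` has an element `b` with the following
property. For all but at most `C / sqrt |G|` of the subsets `S` of `G`, three rounds of colour
refinement separate all vertices of the Cayley digraph of `G` with connection set `S` once any
vertex `g` and the vertex `g * b` have been individualized, and the 3-dimensional
Weisfeiler-Leman method distinguishes the Cayley digraph from every digraph that is not
isomorphic to it.

Outline. The numbers of common out-neighbours of `v` with `1`, with `b` and with both are
compared for two vertices `v`, `w`. All of the random set except its restriction to a set of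
positive density is fixed, so that these numbers become increasing functions on disjoint sets of
coordinates, and by Sperner's theorem the three numbers agree with probability at most
`C / |G| ^ (3 / 2)`, except for boundedly many `w`, for which it is at most `C / sqrt |G|`. So
after two rounds almost all vertices have unique colours, and after three rounds all vertices do.
-/

set_option autoImplicit false

namespace Pool.Agent.Results.MP_f1a348_lc.RandomCayleyDigraphs

open Pool.Agent.N595.RC

/-- **Almost all Cayley digraphs of every finite group are canonized by colour refinement after
the individualization of two vertices, and identified by the 3-dimensional Weisfeiler-Leman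
method.** -/
theorem result : ∃ C : ℝ, ∀ (G : Type) [Group G] [Fintype G], ∃ b : G,
    (Nat.card {S : Finset G // ¬ ((∀ g : G, Function.Injective (refine (cay S) g (g * b) 3)) ∧
      ∀ (W : Type) [Fintype W] (r : W → W → Prop), WLEquivalentR 3 (cay S) r →
        ∃ e : G ≃ W, ∀ x y, cay S x y ↔ r (e x) (e y))} : ℝ) ≤
      C / Real.sqrt (Fintype.card G) * 2 ^ Fintype.card G :=
  main_of (fun _ _ _ b S => CayGood b S) (fun _ _ _ _ _ _ hS => cayGood_of_typical hS)

end Pool.Agent.Results.MP_f1a348_lc.RandomCayleyDigraphs
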