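import Pool.Agent.N624.TG.Main2

/-!
# Special 2-groups: all known methods need dimension or degree of order `log n`

Isomorphism of groups given by multiplication tables is the special case of graph isomorphism (of
Latin square graphs) that is decided in time `n ^ O(log n)` and is a barrier to placing graph
isomorphism in P. The `2`-groups of class two are considered to be its hardest case, and they are
believed to be almost all finite groups. The starting results for `p`-groups of exponent `p` and
class two (`MP_f1a348_lc.GroupWLDimension`, `InvertibleMapGroups`, `AlgebraicProofsForGroups`) assume
that `p` is odd (groups of exponent two are abelian).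

Here: for all `k ≥ 1` and all `m ≥ 48 k` there are two non-isomorphic special `2`-groups of order
`n = 2 ^ (36 m + 6)` (centre = derived subgroup of order `64`, elementary abelian quotient, exponent
`4`) whose Latin square graphs are not isomorphic, but

* the `k`-dimensional Weisfeiler-Leman method does not distinguish them,
* the `k`-dimensional invertible-map test of Dawar and Holm over all fields of odd characteristic and
  of characteristic zero does not distinguish them,
* the polynomial calculus over fields of characteristic different from `2` has no refutation of
  degree `k` of their isomorphism,
* the Positivstellensatz calculus has no refutation of degree `k` of their isomorphism.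

As `k` can be `log_2 n / 1800`, and dimension `O(log n)` trivially suffices, this is optimal up to a
constant factor.

Construction. The groups live on `A × B × Γ`, `Γ = F_2 ^ 6`, with the product
`(x, c, z) (y, d, w) = (x + y, c + d, z + w + c y + N x y)`, where `B` is the space of the linear maps
`A → Γ` given by tuples `c` of functionals with `∑ q i (c i) = 0`, and `N = φ₀ ⊗ c₀` for one group,
`N = 0` for the other one. The partial isomorphisms are
`(x, c, z) ↦ (x, c + M x, z + s x)` with linear `M : A → B` and arbitrary functions `s : A → Γ`; they
are multiplicative at `x`, `y` if `s (x + y) + s x + s y = (M x) y - N x y`. So the affine system has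
to contain quadratic correction functions `s`, which exist on a subspace `W` of `A` exactly if
`(M x) x = N x x` on `W`. These equations are locally but not globally solvable
(`Pool/Agent/N616/HD`, used there for Hadamard matrices). An isomorphism of the groups would
preserve the centre `Γ` and give an additive map of `A × B` preserving the orthogonality relation
of the commutator form, which is excluded by the trace argument of that folder.
-/

set_option autoImplicit false

namespace Pool.Agent.Results.MP_f1a348_lc.TwoGroups

open Pool.Agent.W185.SRG Pool.Agent.W185.LSQ Pool.Agent.TH658.Sos Pool.Agent.N624.TG

theorem result (k m : ℕ) (hk : 1 ≤ k) (hm : 48 * k ≤ m) :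
    ∃ (G H : Type) (_ : Group G) (_ : Group H) (_ : Fintype G) (_ : Fintype H),
      Fintype.card G = 2 ^ (36 * m + 6) ∧ Fintype.card H = 2 ^ (36 * m + 6) ∧
      SpecialTwo G ∧ SpecialTwo H ∧ IsEmpty (G ≃* H) ∧
      IsEmpty (latinGraph (fun a b : G => a * b) ≃g latinGraph (fun a b : H => a * b)) ∧
      WLEquivalent k (latinGraph fun a b : G => a * b) (latinGraph fun a b : H => a * b) ∧
      IMEquiv 2 k (latinGraph fun a b : G => a * b) (latinGraph fun a b : H => a * b) ∧
      (∀ (K : Type) [Field K], (2 : K) ≠ 0 → ¬ PCRefutes K (latinGraph fun a b : G => a * b)
        (latinGraph fun a b : H => a * b) k) ∧
      ¬ PosRefutes (latinGraph fun a b : G => a * b) (latinGraph fun a b : H => a * b) k :=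
  main k m hk hm

end Pool.Agent.Results.MP_f1a348_lc.TwoGroups
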